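import Pool.Agent.H116.HL.KSets2

/-!
# The maximum number of `k`-sets

For some `c > 0`: `a_d(n, k) ≥ C * n * k ^ (d - 2 + c (log log log k) ^ 2 / (log log k) ^ 3)`.

`IsKSet` and `a` are defined in `H501R3/KSet.lean` (namespace `H501.KSet`):

* `IsKSet P k S`: `S ⊆ P`, `|S| = k` and `S = P ∩ {p | ∑ i, v i * p i < c}` for some `v ≠ 0`
  and `c`,
* `a d n k`: the maximum number of `k`-sets of a set of `n` points in `ℝ ^ d`.
-/

namespace Pool.Agent.Results.MP_77a832_co.LogLogCube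

open H501.KSet

/-- There is `c > 0` such that for every `d ≥ 2` and every constant `C`, for all large `k` and all
`n ≥ 2 k`, `a_d(n, k) ≥ C * n * k ^ (d - 2 + c (log log log k) ^ 2 / (log log k) ^ 3)`, and the
same lower bound holds for `a_d(n, n - k)`. -/
theorem result : ∃ c : ℝ, 0 < c ∧ ∀ d : ℕ, 2 ≤ d → ∀ C : ℝ, ∃ k₀ : ℕ, ∀ k n : ℕ, k₀ ≤ k →
    2 * k ≤ n →
    C * n * (k : ℝ) ^ ((d : ℝ) - 2 + c * (Real.log (Real.log (Real.log k))) ^ 2 /
      (Real.log (Real.log k)) ^ 3) ≤ (a d n k : ℝ) ∧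
    C * n * (k : ℝ) ^ ((d : ℝ) - 2 + c * (Real.log (Real.log (Real.log k))) ^ 2 /
      (Real.log (Real.log k)) ^ 3) ≤ (a d n (n - k) : ℝ) := by
  obtain ⟨c, hc, hk⟩ := Pool.Agent.H116.HL.ksets2
  refine ⟨c, hc, fun d hd C => ?_⟩
  obtain ⟨k₀, h⟩ := hk d hd C
  refine ⟨k₀, fun k n hk hn => ⟨h k n hk hn, (h k n hk hn).trans ?_⟩⟩
  exact_mod_cast a_compl_le d n k

end Pool.Agent.Results.MP_77a832_co.LogLogCube
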